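import Pool.Agent.H25.RG.Core

set_option autoImplicit false
set_option linter.unusedSectionVars false

/-! # Pair colourings with prescribed pairs; the extremal graph -/

namespace Pool.Agent.H25.RG

open Finset SimpleGraph
open scoped Classical

lemma pair_up {α : Type*} : ∀ (m : ℕ) (X : Finset α), X.card = m →
    ∃ R : Finset (Finset α), (∀ p ∈ R, p ⊆ X ∧ p.card = 2) ∧
      (∀ p ∈ R, ∀ p' ∈ R, p ≠ p' → Disjoint p p') ∧ X.card ≤ 2 * R.card + 1 := by
  intro m
  induction m using Nat.strong_induction_on with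
  | _ m ih =>
    intro X hX
    by_cases h : X.card ≤ 1
    · exact ⟨∅, by simp, by simp, by simpa using h⟩
    · obtain ⟨p, hp, hp2⟩ := Finset.exists_subset_card_eq (s := X) (n := 2) (by omega)
      have h1 : (X \ p).card + 2 = X.card := by
        rw [Finset.card_sdiff_of_subset hp, hp2]
        omega
      obtain ⟨R, hR1, hR2, hR3⟩ := ih (X \ p).card (by omega) (X \ p) rfl
      have hd : ∀ r ∈ R, Disjoint r p := fun r hr =>
        Finset.disjoint_of_subset_left (hR1 r hr).1 Finset.sdiff_disjoint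
      have hpR : p ∉ R := by
        intro h2
        have := hd p h2
        rw [disjoint_self, Finset.bot_eq_empty] at this
        rw [this] at hp2
        simp at hp2
      refine ⟨insert p R, ?_, ?_, ?_⟩
      · intro r hr
        rcases Finset.mem_insert.1 hr with rfl | hr
        · exact ⟨hp, hp2⟩
        · exact ⟨(hR1 r hr).1.trans Finset.sdiff_subset, (hR1 r hr).2⟩
      · intro r hr r' hr' hne
        rw [Finset.mem_insert] at hr hr'
        rcases hr with hr | hr <;> rcases hr' with hr' | hr'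
        · exact absurd (hr.trans hr'.symm) hne
        · rw [hr]
          exact (hd _ hr').symm
        · rw [hr']
          exact hd _ hr
        · exact hR2 r hr r' hr' hne
      · rw [Finset.card_insert_of_notMem hpR]
        omega

lemma ext_pairs {α : Type*} [DecidableEq α] (E : Finset α) (P : Finset (Finset α))
    (hP : ∀ p ∈ P, p ⊆ E ∧ p.card = 2) (hd : ∀ p ∈ P, ∀ p' ∈ P, p ≠ p' → Disjoint p p')
    {t : ℕ} (ht : 2 * t ≤ E.card) :
    ∃ Q : Finset (Finset α), Q.card = t ∧ (∀ p ∈ Q, p ⊆ E ∧ p.card = 2) ∧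
      (∀ p ∈ Q, ∀ p' ∈ Q, p ≠ p' → Disjoint p p') ∧
      ∀ p ∈ P, p ⊆ Q.biUnion id → p ∈ Q := by
  obtain ⟨R, hR1, hR2, hR3⟩ := pair_up _ (E \ P.biUnion id) rfl
  have hsub : P.biUnion id ⊆ E := by
    intro e he
    obtain ⟨p, hp, hep⟩ := Finset.mem_biUnion.1 he
    exact (hP p hp).1 hep
  have hcP : (P.biUnion id).card = 2 * P.card := by
    rw [Finset.card_biUnion (t := id) fun p hp p' hp' hne => hd p hp p' hp' hne]
    exact (Finset.sum_const_nat (m := 2) fun p hp => (hP p hp).2).trans (mul_comm _ _)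
  have hPR : ∀ p ∈ P, ∀ r ∈ R, Disjoint p r := by
    intro p hp r hr
    rw [Finset.disjoint_left]
    intro e he her
    have := (hR1 r hr).1 her
    rw [Finset.mem_sdiff] at this
    exact this.2 (Finset.mem_biUnion.2 ⟨p, hp, he⟩)
  have hdisj : Disjoint P R := by
    rw [Finset.disjoint_left]
    intro p hp hr
    have := hPR p hp p hr
    rw [disjoint_self, Finset.bot_eq_empty] at this
    have h2 := (hP p hp).2
    rw [this] at h2
    simp at h2
  have hall : ∀ p ∈ P ∪ R, ∀ p' ∈ P ∪ R, p ≠ p' → Disjoint p p' := by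
    intro p hp p' hp' hne
    rcases Finset.mem_union.1 hp with hp | hp <;> rcases Finset.mem_union.1 hp' with hp' | hp'
    · exact hd p hp p' hp' hne
    · exact hPR p hp p' hp'
    · exact (hPR p' hp' p hp).symm
    · exact hR2 p hp p' hp' hne
  have hcard : t ≤ (P ∪ R).card := by
    rw [Finset.card_union_of_disjoint hdisj]
    have h1 := Finset.card_sdiff_of_subset hsub
    have h2 := Finset.card_le_card hsub
    omega
  obtain ⟨Q, hQ, hQt⟩ := Finset.exists_subset_card_eq hcard
  refine ⟨Q, hQt, ?_, fun p hp p' hp' => hall p (hQ hp) p' (hQ hp'), ?_⟩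
  · intro p hp
    rcases Finset.mem_union.1 (hQ hp) with h | h
    · exact hP p h
    · exact ⟨(hR1 p h).1.trans Finset.sdiff_subset, (hR1 p h).2⟩
  · intro p hp hpQ
    have h2 := (hP p hp).2
    obtain ⟨e, he⟩ : p.Nonempty := Finset.card_pos.1 (by omega)
    obtain ⟨r, hr, her⟩ := Finset.mem_biUnion.1 (hpQ he)
    by_contra hcon
    have hne : p ≠ r := fun h => hcon (h ▸ hr)
    exact Finset.disjoint_left.1 (hall p (Finset.mem_union_left _ hp) r (hQ hr) hne) he her

variable {V : Type*} [Fintype V]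

/-- a subgraph with `2t` edges and a colouring whose classes are pairs, containing given pairs -/
lemma build (G : SimpleGraph V) (P : Finset (Finset (Sym2 V)))
    (hP : ∀ p ∈ P, (∀ e ∈ p, e ∈ G.edgeSet) ∧ p.card = 2)
    (hd : ∀ p ∈ P, ∀ p' ∈ P, p ≠ p' → Disjoint p p') {t : ℕ} (ht : 2 * t ≤ G.edgeFinset.card) :
    ∃ (H : SimpleGraph V) (c : Sym2 V → ℕ), H ≤ G ∧ H.edgeFinset.card = 2 * t ∧
      (∀ e ∈ H.edgeFinset, (H.edgeFinset.filter (fun e' => c e' = c e)).card = 2) ∧
      ∀ p ∈ P, (∀ e ∈ p, e ∈ H.edgeSet) → ∀ e ∈ p, ∀ e' ∈ p, c e = c e' := by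
  obtain ⟨Q, hQt, hQ1, hQ2, hQ3⟩ := ext_pairs G.edgeFinset P
    (fun p hp => ⟨fun e he => by simpa using (hP p hp).1 e he, (hP p hp).2⟩) hd ht
  have h0 : ∀ e ∈ Q.biUnion id, e ∈ G.edgeSet := by
    intro e he
    obtain ⟨p, hp, hep⟩ := Finset.mem_biUnion.1 he
    simpa using (hQ1 p hp).1 hep
  have hs : ∀ e, e ∈ (fromEdgeSet ((Q.biUnion id : Finset (Sym2 V)) :
      Set (Sym2 V))).edgeSet ↔ e ∈ Q.biUnion id := by
    intro e
    rw [edgeSet_fromEdgeSet]
    constructor
    · intro h1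
      simpa using h1.1
    · intro h1
      exact ⟨by simpa using h1, fun h2 => G.not_isDiag_of_mem_edgeSet (h0 e h1) h2⟩
  -- the pair of an edge
  have hex : ∀ e, ∃ p : Finset (Sym2 V), e ∈ Q.biUnion id → p ∈ Q ∧ e ∈ p := by
    intro e
    by_cases he : e ∈ Q.biUnion id
    · obtain ⟨p, hp, hep⟩ := Finset.mem_biUnion.1 he
      exact ⟨p, fun _ => ⟨hp, hep⟩⟩
    · exact ⟨∅, fun h => absurd h he⟩
  choose g hg using hex
  have huniq : ∀ p ∈ Q, ∀ e ∈ p, g e = p := by
    intro p hp e he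
    have h1 := hg e (Finset.mem_biUnion.2 ⟨p, hp, he⟩)
    by_contra hne
    exact Finset.disjoint_left.1 (hQ2 _ h1.1 _ hp hne) h1.2 he
  have hE : ∀ H : SimpleGraph V, (∀ e, e ∈ H.edgeSet ↔ e ∈ Q.biUnion id) →
      H.edgeFinset = Q.biUnion id := by
    intro H h
    ext e
    rw [mem_edgeFinset]
    exact h e
  obtain ⟨H, hH⟩ : ∃ H : SimpleGraph V, ∀ e, e ∈ H.edgeSet ↔ e ∈ Q.biUnion id := ⟨_, hs⟩
  refine ⟨H, fun e => ((Fintype.equivFin (Finset (Sym2 V))) (g e)).1, ?_, ?_, ?_, ?_⟩
  · intro x y hxy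
    exact h0 _ ((hH s(x, y)).1 hxy)
  · rw [hE H hH, Finset.card_biUnion (t := id) fun p hp p' hp' hne => hQ2 p hp p' hp' hne]
    rw [← hQt]
    exact (Finset.sum_const_nat (m := 2) fun p hp => (hQ1 p hp).2).trans (mul_comm _ _)
  · intro e he
    rw [hE H hH] at he ⊢
    have h1 := hg e he
    have h2 : ((Q.biUnion id).filter (fun e' =>
        ((Fintype.equivFin (Finset (Sym2 V))) (g e')).1 =
          ((Fintype.equivFin (Finset (Sym2 V))) (g e)).1)) = g e := by
      ext e'
      rw [Finset.mem_filter]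
      constructor
      · rintro ⟨h3, h4⟩
        have h5 : g e' = g e := by
          apply (Fintype.equivFin (Finset (Sym2 V))).injective
          exact Fin.ext h4
        rw [← h5]
        exact (hg e' h3).2
      · intro h3
        refine ⟨Finset.mem_biUnion.2 ⟨g e, h1.1, h3⟩, ?_⟩
        rw [huniq (g e) h1.1 e' h3]
    rw [h2]
    exact (hQ1 _ h1.1).2
  · intro p hp hpH e he e' he'
    have h1 : p ∈ Q := hQ3 p hp fun e he => (hH e).1 (hpH e he)
    simp only
    rw [huniq p h1 e he, huniq p h1 e' he']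

end Pool.Agent.H25.RG
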