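import Mathlib

set_option autoImplicit false

/-! # Rainbow triangles in graphs whose colour classes have at most two edges: the exact bound

`Good G c`: every colour is used at most twice on the edges of `G` and no triangle is rainbow. Then
`|E| ≤ n^2/4 + (n+1)/4` for every `n ≥ 6` (`edges_le`). -/

namespace Pool.Agent.H25.RG

open Finset SimpleGraph
open scoped Classical

set_option linter.unusedSectionVars false

variable {V : Type*} [Fintype V]

/-- every colour at most twice, no rainbow triangle -/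
structure Good (G : SimpleGraph V) (c : Sym2 V → ℕ) : Prop where
  two : ∀ e₁ ∈ G.edgeSet, ∀ e₂ ∈ G.edgeSet, ∀ e₃ ∈ G.edgeSet, c e₁ = c e₂ → c e₁ = c e₃ →
    e₁ = e₂ ∨ e₁ = e₃ ∨ e₂ = e₃
  tri : ∀ x y z, G.Adj x y → G.Adj y z → G.Adj z x →
    c s(x, y) = c s(y, z) ∨ c s(y, z) = c s(z, x) ∨ c s(z, x) = c s(x, y)

lemma Good.mono {G H : SimpleGraph V} {c : Sym2 V → ℕ} (h : Good G c) (hH : H ≤ G) : Good H c where
  two e₁ h₁ e₂ h₂ e₃ h₃ := h.two e₁ (edgeSet_mono hH h₁) e₂ (edgeSet_mono hH h₂) e₃
    (edgeSet_mono hH h₃)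
  tri x y z h₁ h₂ h₃ := h.tri x y z (hH h₁) (hH h₂) (hH h₃)

/-- edges inside the neighbourhood of `v` -/
noncomputable def TE (G : SimpleGraph V) (v : V) : Finset (Sym2 V) :=
  G.edgeFinset.filter fun e => ∀ x ∈ e, G.Adj v x

lemma mem_TE {G : SimpleGraph V} {v : V} {e : Sym2 V} :
    e ∈ TE G v ↔ e ∈ G.edgeSet ∧ ∀ x ∈ e, G.Adj v x := by
  simp [TE]

lemma pick_inj {G : SimpleGraph V} {c : Sym2 V → ℕ} (h : Good G c) {v u y y' : V}
    (hu : G.Adj v u) (h1 : G.Adj u y) (h2 : G.Adj v y) (h1' : G.Adj u y') (h2' : G.Adj v y')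
    (hc : c s(v, u) = c s(u, y) ∨ c s(v, u) = c s(v, y))
    (hc' : c s(v, u) = c s(u, y') ∨ c s(v, u) = c s(v, y')) : y = y' := by
  have n1 := hu.ne
  have n2 := h1.ne
  have n3 := h2.ne
  have n4 := h1'.ne
  have n5 := h2'.ne
  rcases hc with hc | hc <;> rcases hc' with hc' | hc'
  · rcases h.two _ hu _ h1 _ h1' hc hc' with h3 | h3 | h3 <;> simp at h3 <;> grind
  · rcases h.two _ hu _ h1 _ h2' hc hc' with h3 | h3 | h3 <;> simp at h3 <;> grind
  · rcases h.two _ hu _ h2 _ h1' hc hc' with h3 | h3 | h3 <;> simp at h3 <;> grind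
  · rcases h.two _ hu _ h2 _ h2' hc hc' with h3 | h3 | h3 <;> simp at h3 <;> grind

/-- every triangle at `v` picks an edge at `v` -/
lemma card_TE_le {G : SimpleGraph V} {c : Sym2 V → ℕ} (h : Good G c) (v : V) :
    (TE G v).card ≤ G.degree v := by
  have key : ∀ e ∈ TE G v, ∃ u, G.Adj v u ∧ ∃ y, e = s(u, y) ∧ G.Adj u y ∧ G.Adj v y ∧
      (c s(v, u) = c s(u, y) ∨ c s(v, u) = c s(v, y)) := by
    intro e he
    rw [mem_TE] at he
    obtain ⟨he, hv⟩ := he
    induction e with
    | _ x y =>
      have hxy : G.Adj x y := he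
      have hx : G.Adj v x := hv x (by simp)
      have hy : G.Adj v y := hv y (by simp)
      rcases h.tri v x y hx hxy hy.symm with h1 | h1 | h1
      · exact ⟨x, hx, y, rfl, hxy, hy, Or.inl h1⟩
      · exact ⟨y, hy, x, Sym2.eq_swap, hxy.symm, hx,
          Or.inl (by rw [Sym2.eq_swap (a := v) (b := y), ← h1, Sym2.eq_swap])⟩
      · exact ⟨x, hx, y, rfl, hxy, hy, Or.inr (by rw [← h1, Sym2.eq_swap])⟩
  have : Nonempty V := ⟨v⟩
  choose! f hf using key
  rw [← card_neighborFinset_eq_degree]
  refine Finset.card_le_card_of_injOn f (fun e he => ?_) ?_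
  · simpa using (hf e he).1
  · intro e he e' he' hee
    obtain ⟨hu, y, h0, huy, hvy, hc⟩ := hf e he
    obtain ⟨hu', y', h1, huy', hvy', hc'⟩ := hf e' he'
    rw [← hee] at hu' h1 huy' hc'
    rw [h0, h1, pick_inj h hu huy hvy huy' hvy' hc hc']

/-- the count of the edges at a vertex -/
lemma edges_le_TE {G : SimpleGraph V} {S : Finset V} (hS : ∀ x y, G.Adj x y → x ∈ S) (w : V) :
    G.edgeFinset.card ≤ (TE G w).card + ∑ u ∈ S.filter (fun u => ¬ G.Adj w u), G.degree u := by
  have h1 : G.edgeFinset ⊆ TE G w ∪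
      (S.filter (fun u => ¬ G.Adj w u)).biUnion (fun u => G.incidenceFinset u) := by
    intro e he
    rw [Finset.mem_union, mem_TE, Finset.mem_biUnion]
    by_cases h : ∀ x ∈ e, G.Adj w x
    · exact Or.inl ⟨by simpa using he, h⟩
    · right
      push Not at h
      obtain ⟨u, hu, hw⟩ := h
      have he' : e ∈ G.edgeSet := by simpa using he
      refine ⟨u, ?_, by rw [mem_incidenceFinset]; exact ⟨he', hu⟩⟩
      rw [Finset.mem_filter]
      refine ⟨?_, hw⟩
      obtain ⟨y, rfl⟩ := Sym2.mem_iff_exists.1 hu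
      exact hS u y he'
  calc G.edgeFinset.card ≤ _ := Finset.card_le_card h1
    _ ≤ _ := Finset.card_union_le _ _
    _ ≤ _ := by
      gcongr
      refine Finset.card_biUnion_le.trans (le_of_eq ?_)
      exact Finset.sum_congr rfl fun u _ => card_incidenceFinset_eq_degree G u

/-- each triangle has its own pair of edges -/
lemma two_tri_le {G : SimpleGraph V} {c : Sym2 V → ℕ} (h : Good G c) :
    2 * (G.cliqueFinset 3).card ≤ G.edgeFinset.card := by
  have key : ∀ t ∈ G.cliqueFinset 3, ∃ e₁ e₂ : Sym2 V, e₁ ∈ G.edgeSet ∧ e₂ ∈ G.edgeSet ∧ e₁ ≠ e₂ ∧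
      c e₁ = c e₂ ∧ t = e₁.toFinset ∪ e₂.toFinset := by
    intro t ht
    rw [mem_cliqueFinset_iff, is3Clique_iff] at ht
    obtain ⟨x, y, z, hxy, hxz, hyz, rfl⟩ := ht
    have n1 := hxy.ne
    have n2 := hxz.ne
    have n3 := hyz.ne
    rcases h.tri x y z hxy hyz hxz.symm with h1 | h1 | h1
    · exact ⟨_, _, hxy, hyz, by simp; grind, h1, by ext w; simp; grind⟩
    · exact ⟨_, _, hyz, hxz.symm, by simp; grind, h1, by ext w; simp; grind⟩
    · exact ⟨_, _, hxz.symm, hxy, by simp; grind, h1, by ext w; simp; grind⟩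
  rcases isEmpty_or_nonempty V with hV | hV
  · have : G.cliqueFinset 3 = ∅ := by
      ext t
      rw [mem_cliqueFinset_iff, is3Clique_iff]
      simp
    simp [this]
  have : Nonempty (Sym2 V) := ⟨s(Classical.arbitrary V, Classical.arbitrary V)⟩
  choose! f g hf hg hne hc ht using key
  have h1 : ((G.cliqueFinset 3).biUnion fun t => {f t, g t}) ⊆ G.edgeFinset := by
    intro e he
    simp only [Finset.mem_biUnion, Finset.mem_insert, Finset.mem_singleton] at he
    obtain ⟨t, h2, rfl | rfl⟩ := he
    · simpa using hf t h2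
    · simpa using hg t h2
  have h2 : ((G.cliqueFinset 3).biUnion fun t => ({f t, g t} : Finset (Sym2 V))).card =
      ∑ t ∈ G.cliqueFinset 3, 2 := by
    rw [Finset.card_biUnion]
    · exact Finset.sum_congr rfl fun t h3 => Finset.card_pair (hne t h3)
    · intro t h3 t' h4 htt
      change Disjoint ({f t, g t} : Finset (Sym2 V)) {f t', g t'}
      rw [Finset.disjoint_left]
      intro e h5 h6
      simp only [Finset.mem_insert, Finset.mem_singleton] at h5 h6
      apply htt
      have ec : c (f t) = c (f t') := by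
        have e1 : c e = c (f t) := by
          rcases h5 with rfl | rfl
          · rfl
          · exact (hc t h3).symm
        have e2 : c e = c (f t') := by
          rcases h6 with rfl | rfl
          · rfl
          · exact (hc t' h4).symm
        rw [← e1, e2]
      have a1 := h.two _ (hf t h3) _ (hg t h3) _ (hf t' h4) (hc t h3) ec
      have a2 := h.two _ (hf t h3) _ (hg t h3) _ (hg t' h4) (hc t h3) (ec.trans (hc t' h4))
      have n1 := hne t h3
      have n2 := hne t' h4
      rw [ht t h3, ht t' h4]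
      have : (f t' = f t ∧ g t' = g t) ∨ (f t' = g t ∧ g t' = f t) := by grind
      rcases this with ⟨b1, b2⟩ | ⟨b1, b2⟩
      · rw [b1, b2]
      · rw [b1, b2, Finset.union_comm]
  have h3 := Finset.card_le_card h1
  rw [h2, Finset.sum_const, smul_eq_mul] at h3
  omega

lemma sum_TE_le (G : SimpleGraph V) (S : Finset V) :
    ∑ v ∈ S, (TE G v).card ≤ 3 * (G.cliqueFinset 3).card := by
  have h1 : ∀ v, (TE G v).card ≤ ((G.cliqueFinset 3).filter (fun t => v ∈ t)).card := by
    intro v
    refine Finset.card_le_card_of_injOn (fun e => insert v e.toFinset) (fun e he => ?_) ?_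
    · rw [Finset.mem_coe, mem_TE] at he
      obtain ⟨he, hv⟩ := he
      induction e with
      | _ x y =>
        have hxy : G.Adj x y := he
        have hx : G.Adj v x := hv x (by simp)
        have hy : G.Adj v y := hv y (by simp)
        simp only [Finset.coe_filter, Set.mem_ofPred_eq, mem_cliqueFinset_iff]
        refine ⟨?_, by simp⟩
        rw [is3Clique_iff]
        exact ⟨v, x, y, hx, hy, hxy, by ext w; simp⟩
    · intro e he e' he' hee
      rw [Finset.mem_coe, mem_TE] at he he'
      apply Sym2.ext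
      intro x
      have h2 := congrArg (fun s : Finset V => x ∈ s) hee
      simp only [Finset.mem_insert, Sym2.mem_toFinset, eq_iff_iff] at h2
      constructor
      · intro hx
        rcases h2.1 (Or.inr hx) with h3 | h3
        · exact absurd h3 (he.2 x hx).ne'
        · exact h3
      · intro hx
        rcases h2.2 (Or.inr hx) with h3 | h3
        · exact absurd h3 (he'.2 x hx).ne'
        · exact h3
  calc ∑ v ∈ S, (TE G v).card ≤ ∑ v ∈ (univ : Finset V), (TE G v).card :=
        Finset.sum_le_sum_of_subset (Finset.subset_univ S)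
    _ ≤ ∑ v ∈ (univ : Finset V), ((G.cliqueFinset 3).filter (fun t => v ∈ t)).card :=
        Finset.sum_le_sum fun v _ => h1 v
    _ = ∑ t ∈ G.cliqueFinset 3, ((univ : Finset V).filter (fun v => v ∈ t)).card :=
        Finset.sum_card_bipartiteAbove_eq_sum_card_bipartiteBelow (fun v t => v ∈ t)
    _ = ∑ t ∈ G.cliqueFinset 3, 3 := by
        refine Finset.sum_congr rfl fun t ht => ?_
        rw [Finset.filter_univ_mem]
        exact (mem_cliqueFinset_iff.1 ht).card_eq
    _ = _ := by rw [Finset.sum_const, smul_eq_mul, mul_comm]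

/-- the number of edges (one fixed instance) -/
noncomputable def ec (G : SimpleGraph V) : ℕ := G.edgeFinset.card

lemma ec_eq (G : SimpleGraph V) (E : Finset (Sym2 V)) (h : ∀ e, e ∈ G.edgeSet ↔ e ∈ E) :
    ec G = E.card := by
  unfold ec
  congr 1
  ext e
  rw [mem_edgeFinset]
  exact h e

lemma exists_sub (G : SimpleGraph V) {m : ℕ} (h : m ≤ G.edgeFinset.card) :
    ∃ H : SimpleGraph V, H ≤ G ∧ H.edgeFinset.card = m := by
  obtain ⟨E, hE, hm⟩ := Finset.exists_subset_card_eq h
  have hE' : ∀ e ∈ E, e ∈ G.edgeSet := by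
    intro e he
    simpa using hE he
  refine ⟨fromEdgeSet (E : Set (Sym2 V)), ?_, ?_⟩
  · intro x y hxy
    rw [fromEdgeSet_adj] at hxy
    exact hE' _ (by simpa using hxy.1)
  · rw [← hm]
    refine ec_eq _ E fun e => ?_
    rw [edgeSet_fromEdgeSet]
    constructor
    · intro h1
      simpa using h1.1
    · intro h1
      exact ⟨by simpa using h1, fun h2 => G.not_isDiag_of_mem_edgeSet (hE' e h1) h2⟩

lemma card_del (G : SimpleGraph V) (v : V) :
    ec (G.deleteIncidenceSet v) + G.degree v = G.edgeFinset.card := by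
  have h1 : ec (G.deleteIncidenceSet v) = (G.edgeFinset \ G.incidenceFinset v).card := by
    refine ec_eq _ _ fun e => ?_
    simp [edgeSet_deleteIncidenceSet]
  have h2 : G.incidenceFinset v ⊆ G.edgeFinset := by
    intro e he
    rw [mem_incidenceFinset] at he
    simpa using he.1
  rw [h1, Finset.card_sdiff_of_subset h2, ← card_incidenceFinset_eq_degree]
  exact Nat.sub_add_cancel (Finset.card_le_card h2)

/-- the extremal number -/
def F (n : ℕ) : ℕ := n ^ 2 / 4 + (n + 1) / 4

lemma F0 (q : ℕ) : F (4 * q) = 4 * q ^ 2 + q := by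
  have : (4 * q) ^ 2 = 16 * q ^ 2 := by ring
  rw [F, this]
  omega

lemma F1 (q : ℕ) : F (4 * q + 1) = 4 * q ^ 2 + 3 * q := by
  have : (4 * q + 1) ^ 2 = 16 * q ^ 2 + 8 * q + 1 := by ring
  rw [F, this]
  omega

lemma F2 (q : ℕ) : F (4 * q + 2) = 4 * q ^ 2 + 5 * q + 1 := by
  have : (4 * q + 2) ^ 2 = 16 * q ^ 2 + 16 * q + 4 := by ring
  rw [F, this]
  omega

lemma F3 (q : ℕ) : F (4 * q + 3) = 4 * q ^ 2 + 7 * q + 3 := by
  have : (4 * q + 3) ^ 2 = 16 * q ^ 2 + 24 * q + 9 := by ring
  rw [F, this]
  omega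

section
variable {G : SimpleGraph V} {S : Finset V} (hS : ∀ x y, G.Adj x y → x ∈ S)
include hS

lemma sum_deg : ∑ v ∈ S, G.degree v = 2 * G.edgeFinset.card := by
  rw [← sum_degrees_eq_twice_card_edges]
  refine Finset.sum_subset (Finset.subset_univ S) fun v _ hv => ?_
  rw [← card_neighborFinset_eq_degree, Finset.card_eq_zero]
  ext u
  simp only [mem_neighborFinset, Finset.notMem_empty, iff_false]
  exact fun h => hv (hS v u h)

lemma card_adj (w : V) : (S.filter (fun u => G.Adj w u)).card = G.degree w := by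
  rw [← card_neighborFinset_eq_degree]
  congr 1
  ext u
  rw [Finset.mem_filter, mem_neighborFinset]
  exact ⟨fun h => h.2, fun h => ⟨hS u w h.symm, h⟩⟩

lemma card_nadj (w : V) : (S.filter (fun u => ¬ G.Adj w u)).card + G.degree w = S.card := by
  rw [← card_adj hS w, add_comm]
  exact Finset.card_filter_add_card_filter_not _

end

lemma base {G : SimpleGraph V} {c : Sym2 V → ℕ} (h : Good G c) {S : Finset V} (hc : S.card = 6)
    (hS : ∀ x y, G.Adj x y → x ∈ S) (hE : G.edgeFinset.card = 11) : False := by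
  have h1 := sum_deg hS
  have h2 : ∀ v ∈ S, G.edgeFinset.card ≤
      (TE G v).card + ∑ u ∈ S.filter (fun u => ¬ G.Adj v u), G.degree u :=
    fun v _ => edges_le_TE hS v
  have h3 := Finset.sum_le_sum h2
  rw [Finset.sum_add_distrib, Finset.sum_const, hc, hE] at h3
  have h4 := sum_TE_le G S
  have h5 := two_tri_le h
  have h6 : ∑ v ∈ S, ∑ u ∈ S.filter (fun u => ¬ G.Adj v u), G.degree u =
      ∑ u ∈ S, (S.filter (fun v => ¬ G.Adj u v)).card * G.degree u := by
    simp_rw [Finset.sum_filter]
    rw [Finset.sum_comm]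
    refine Finset.sum_congr rfl fun u _ => ?_
    rw [← Finset.sum_filter, Finset.sum_const, smul_eq_mul]
    congr 2
    ext v
    simp [adj_comm]
  have h7 : ∀ u ∈ S, (S.filter (fun v => ¬ G.Adj u v)).card * G.degree u + G.degree u ≤ 12 := by
    intro u _
    have e1 := card_nadj hS u
    rw [hc] at e1
    have e2 : G.degree u ≤ 6 := by omega
    have e3 : (S.filter (fun v => ¬ G.Adj u v)).card = 6 - G.degree u := by omega
    rw [e3]
    interval_cases G.degree u <;> omega
  have h8 := Finset.sum_le_sum h7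
  rw [Finset.sum_add_distrib, Finset.sum_const, hc, h1, hE] at h8
  rw [h6] at h3
  rw [hE] at h5
  simp only [smul_eq_mul] at h3 h8
  omega

/-- **the extremal theorem**: at most `n^2/4 + (n+1)/4` edges for `n ≥ 6` vertices -/
theorem edges_le {c : Sym2 V → ℕ} {n : ℕ} (hn : 6 ≤ n) : ∀ (S : Finset V), S.card = n →
    ∀ (G : SimpleGraph V), Good G c → (∀ x y, G.Adj x y → x ∈ S) →
    G.edgeFinset.card ≤ F n := by
  induction n, hn using Nat.le_induction with
  | base =>
    intro S hc G hG hS
    by_contra hcon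
    have h6 : F 6 = 10 := by decide
    rw [h6] at hcon
    obtain ⟨H, hH, hE⟩ := exists_sub G (m := 11) (by omega)
    exact base (hG.mono hH) hc (fun x y hxy => hS x y (hH hxy)) hE
  | succ n hn ih =>
    intro S hc G₀ hG₀ hS₀
    by_contra hcon
    obtain ⟨G, hH, hE⟩ := exists_sub G₀ (m := F (n + 1) + 1) (by omega)
    have hG := hG₀.mono hH
    have hS : ∀ x y, G.Adj x y → x ∈ S := fun x y hxy => hS₀ x y (hH hxy)
    clear hcon hG₀ hS₀
    by_cases hv : ∃ v ∈ S, G.degree v + F n ≤ F (n + 1)
    · obtain ⟨v, hvS, hv⟩ := hv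
      have h1 : ec (G.deleteIncidenceSet v) ≤ F n := ih (S.erase v) (by rw [Finset.card_erase_of_mem hvS, hc]; omega)
        (G.deleteIncidenceSet v) (hG.mono (G.deleteIncidenceSet_le v)) (by
          intro x y hxy
          rw [deleteIncidenceSet_adj] at hxy
          exact Finset.mem_erase.2 ⟨hxy.2.1, hS x y hxy.1⟩)
      have h2 := card_del G v
      omega
    · push Not at hv
      have h1 := sum_deg hS
      rw [hE] at h1
      obtain ⟨q, hq⟩ : ∃ q, n + 1 = 4 * q ∨ n + 1 = 4 * q + 1 ∨ n + 1 = 4 * q + 2 ∨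
          n + 1 = 4 * q + 3 := ⟨(n + 1) / 4, by omega⟩
      rcases hq with hq | hq | hq | hq
      · obtain ⟨p, rfl⟩ : ∃ p, q = p + 1 := ⟨q - 1, by omega⟩
        have e1 : n = 4 * p + 3 := by omega
        have e2 := F3 p
        rw [← e1] at e2
        have e3 := F0 (p + 1)
        rw [← hq] at e3
        have e4 : ∀ v ∈ S, 2 * p + 3 ≤ G.degree v := by
          intro v hvS
          have := hv v hvS
          rw [e2, e3] at this
          nlinarith
        have e5 := Finset.card_nsmul_le_sum S (fun v => G.degree v) _ e4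
        rw [h1, e3, hc, hq, smul_eq_mul] at e5
        nlinarith
      · have e1 : n = 4 * q := by omega
        have e2 := F0 q
        rw [← e1] at e2
        have e3 := F1 q
        rw [← hq] at e3
        have e4 : ∀ v ∈ S, 2 * q + 1 ≤ G.degree v := by
          intro v hvS
          have := hv v hvS
          rw [e2, e3] at this
          omega
        obtain ⟨w, hw, hw1⟩ : ∃ w ∈ S, 2 * q + 2 ≤ G.degree w := by
          by_contra hcon
          push Not at hcon
          have e5 : ∑ v ∈ S, G.degree v = ∑ v ∈ S, (2 * q + 1) :=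
            Finset.sum_congr rfl fun v hv1 => by
              have := e4 v hv1
              have := hcon v hv1
              omega
          rw [h1, e3, Finset.sum_const, hc, hq, smul_eq_mul] at e5
          ring_nf at e5
          omega
        have e5 := Finset.card_nsmul_le_sum (S.filter (fun u => G.Adj w u)) (fun v => G.degree v)
          (2 * q + 1) (fun u hu => e4 u (Finset.mem_of_mem_filter u hu))
        rw [card_adj hS] at e5
        have e6 := Finset.sum_filter_add_sum_filter_not S (fun u => G.Adj w u)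
          (fun v => G.degree v)
        have e7 := edges_le_TE hS w
        have e8 := card_TE_le hG w
        rw [h1, e3] at e6
        rw [hE, e3] at e7
        simp only [smul_eq_mul] at e5
        have e9 : (2 * q + 2) * (2 * q) ≤ G.degree w * (2 * q) := Nat.mul_le_mul_right _ hw1
        nlinarith
      · have e1 : n = 4 * q + 1 := by omega
        have e2 := F1 q
        rw [← e1] at e2
        have e3 := F2 q
        rw [← hq] at e3
        have e4 : ∀ v ∈ S, 2 * q + 2 ≤ G.degree v := by
          intro v hvS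
          have := hv v hvS
          rw [e2, e3] at this
          omega
        have e5 := Finset.card_nsmul_le_sum S (fun v => G.degree v) _ e4
        rw [h1, e3, hc, hq, smul_eq_mul] at e5
        nlinarith
      · have e1 : n = 4 * q + 2 := by omega
        have e2 := F2 q
        rw [← e1] at e2
        have e3 := F3 q
        rw [← hq] at e3
        have e4 : ∀ v ∈ S, 2 * q + 3 ≤ G.degree v := by
          intro v hvS
          have := hv v hvS
          rw [e2, e3] at this
          omega
        have e5 := Finset.card_nsmul_le_sum S (fun v => G.degree v) _ e4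
        rw [h1, e3, hc, hq, smul_eq_mul] at e5
        nlinarith

end Pool.Agent.H25.RG
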