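import Pool.Agent.H25.RG.Build

set_option autoImplicit false
set_option linter.unusedSectionVars false

/-! # The extremal graph: complete bipartite with a matching in the larger part -/

namespace Pool.Agent.H25.RG

open Finset SimpleGraph
open scoped Classical

/-- the size of the larger part -/
def pa (n : ℕ) : ℕ := (n + 1) / 2

/-- complete bipartite graph with parts `x < pa n`, `x ≥ pa n` and the matching `2 j, 2 j + 1` in
the first part -/
def KG (n : ℕ) : SimpleGraph (Fin n) where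
  Adj x y := x ≠ y ∧ ((x.1 < pa n ∧ pa n ≤ y.1) ∨ (y.1 < pa n ∧ pa n ≤ x.1) ∨
    (x.1 < pa n ∧ y.1 < pa n ∧ x.1 / 2 = y.1 / 2))
  symm := ⟨by
    intro x y h
    refine ⟨h.1.symm, ?_⟩
    rcases h.2 with h1 | h1 | h1
    · exact Or.inr (Or.inl h1)
    · exact Or.inl h1
    · exact Or.inr (Or.inr ⟨h1.2.1, h1.1, h1.2.2.symm⟩)⟩
  loopless := ⟨fun x h => h.1 rfl⟩

/-- the pairs -/
noncomputable def KP (n : ℕ) : Finset (Finset (Sym2 (Fin n))) :=
  ((Finset.univ : Finset (Fin n × Fin n × Fin n)).filter (fun q => q.1 ≠ q.2.1 ∧ q.1.1 < pa n ∧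
    q.2.1.1 < pa n ∧ q.1.1 / 2 = q.2.1.1 / 2 ∧ pa n ≤ q.2.2.1)).image
    (fun q => {s(q.1, q.2.2), s(q.2.1, q.2.2)})

lemma mem_KP {n : ℕ} {p : Finset (Sym2 (Fin n))} : p ∈ KP n ↔ ∃ x y z : Fin n, x ≠ y ∧
    x.1 < pa n ∧ y.1 < pa n ∧ x.1 / 2 = y.1 / 2 ∧ pa n ≤ z.1 ∧ p = {s(x, z), s(y, z)} := by
  simp only [KP, Finset.mem_image, Finset.mem_filter, Finset.mem_univ, true_and]
  constructor
  · rintro ⟨⟨x, y, z⟩, ⟨h1, h2, h3, h4, h5⟩, h6⟩
    exact ⟨x, y, z, h1, h2, h3, h4, h5, h6.symm⟩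
  · rintro ⟨x, y, z, h1, h2, h3, h4, h5, h6⟩
    exact ⟨(x, y, z), ⟨h1, h2, h3, h4, h5⟩, h6.symm⟩

lemma KP_sub {n : ℕ} : ∀ p ∈ KP n, (∀ e ∈ p, e ∈ (KG n).edgeSet) ∧ p.card = 2 := by
  intro p hp
  obtain ⟨x, y, z, h1, h2, h3, h4, h5, rfl⟩ := mem_KP.1 hp
  have n1 : x ≠ z := fun h => by rw [h] at h2; omega
  have n2 : y ≠ z := fun h => by rw [h] at h3; omega
  constructor
  · intro e he
    rw [Finset.mem_insert, Finset.mem_singleton] at he
    rcases he with rfl | rfl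
    · exact ⟨n1, Or.inl ⟨h2, h5⟩⟩
    · exact ⟨n2, Or.inl ⟨h3, h5⟩⟩
  · rw [Finset.card_pair]
    simp
    grind

lemma KP_disj {n : ℕ} : ∀ p ∈ KP n, ∀ p' ∈ KP n, p ≠ p' → Disjoint p p' := by
  intro p hp p' hp' hne
  obtain ⟨x, y, z, h1, h2, h3, h4, h5, rfl⟩ := mem_KP.1 hp
  obtain ⟨x', y', z', h1', h2', h3', h4', h5', rfl⟩ := mem_KP.1 hp'
  rw [Finset.disjoint_left]
  intro e he he'
  apply hne
  have v1 : x.1 ≠ y.1 := fun h => h1 (Fin.ext h)
  have v1' : x'.1 ≠ y'.1 := fun h => h1' (Fin.ext h)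
  have cases : (x = x' ∧ y = y' ∧ z = z') ∨ (x = y' ∧ y = x' ∧ z = z') := by
    rw [Finset.mem_insert, Finset.mem_singleton] at he he'
    rcases he with rfl | rfl <;> rcases he' with h | h <;> rw [Sym2.eq_iff] at h <;>
      simp only [Fin.ext_iff] at h ⊢ <;> omega
  rcases cases with ⟨rfl, rfl, rfl⟩ | ⟨rfl, rfl, rfl⟩
  · rfl
  · exact Finset.pair_comm _ _

lemma KG_tri {n : ℕ} (x y z : Fin n) (hxy : (KG n).Adj x y) (hyz : (KG n).Adj y z)
    (hzx : (KG n).Adj z x) : ∃ p ∈ KP n, (p = {s(x, y), s(y, z)} ∨ p = {s(y, z), s(z, x)} ∨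
      p = {s(z, x), s(x, y)}) := by
  have n1 : x.1 ≠ y.1 := fun h => hxy.1 (Fin.ext h)
  have n2 : y.1 ≠ z.1 := fun h => hyz.1 (Fin.ext h)
  have n3 : z.1 ≠ x.1 := fun h => hzx.1 (Fin.ext h)
  have m1 := hxy.1
  have m2 := hyz.1
  have m3 := hzx.1
  have h1 := hxy.2
  have h2 := hyz.2
  have h3 := hzx.2
  have h4 : (pa n ≤ x.1 ∧ y.1 < pa n ∧ z.1 < pa n ∧ y.1 / 2 = z.1 / 2) ∨
      (pa n ≤ y.1 ∧ x.1 < pa n ∧ z.1 < pa n ∧ x.1 / 2 = z.1 / 2) ∨
      (pa n ≤ z.1 ∧ x.1 < pa n ∧ y.1 < pa n ∧ x.1 / 2 = y.1 / 2) := by omega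
  rcases h4 with h4 | h4 | h4
  · refine ⟨{s(y, x), s(z, x)}, mem_KP.2 ⟨y, z, x, m2, h4.2.1, h4.2.2.1, h4.2.2.2, h4.1, rfl⟩,
      Or.inr (Or.inr ?_)⟩
    rw [Sym2.eq_swap (a := y) (b := x), Finset.pair_comm]
  · refine ⟨{s(x, y), s(z, y)}, mem_KP.2 ⟨x, z, y, m3.symm, h4.2.1, h4.2.2.1, h4.2.2.2, h4.1, rfl⟩,
      Or.inl ?_⟩
    rw [Sym2.eq_swap (a := z) (b := y)]
  · refine ⟨{s(x, z), s(y, z)}, mem_KP.2 ⟨x, y, z, m1, h4.2.1, h4.2.2.1, h4.2.2.2, h4.1, rfl⟩,
      Or.inr (Or.inl ?_)⟩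
    rw [Sym2.eq_swap (a := x) (b := z), Finset.pair_comm]

lemma KG_card (n : ℕ) : F n ≤ (KG n).edgeFinset.card := by
  have ha : pa n + n / 2 = n := by unfold pa; omega
  have ha2 : n / 2 ≤ pa n := by unfold pa; omega
  -- the two families of edges
  set E1 : Finset (Sym2 (Fin n)) := (Finset.univ : Finset (Fin (pa n) × Fin (n / 2))).image
    (fun q => s(⟨q.1.1, by omega⟩, ⟨pa n + q.2.1, by omega⟩)) with hE1
  set E2 : Finset (Sym2 (Fin n)) := (Finset.univ : Finset (Fin (pa n / 2))).image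
    (fun j => s(⟨2 * j.1, by omega⟩, ⟨2 * j.1 + 1, by omega⟩)) with hE2
  have c1 : E1.card = pa n * (n / 2) := by
    rw [hE1, Finset.card_image_of_injective, Finset.card_univ, Fintype.card_prod, Fintype.card_fin,
      Fintype.card_fin]
    rintro ⟨i, j⟩ ⟨i', j'⟩ h
    simp only [Sym2.eq_iff, Fin.ext_iff] at h
    have := i.2
    have := i'.2
    ext
    · simp only
      omega
    · simp only
      omega
  have c2 : E2.card = pa n / 2 := by
    rw [hE2, Finset.card_image_of_injective, Finset.card_univ, Fintype.card_fin]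
    intro j j' h
    simp only [Sym2.eq_iff, Fin.ext_iff] at h
    ext
    omega
  have hd : Disjoint E1 E2 := by
    rw [Finset.disjoint_left]
    intro e he he'
    rw [hE1, Finset.mem_image] at he
    rw [hE2, Finset.mem_image] at he'
    obtain ⟨⟨i, j⟩, -, rfl⟩ := he
    obtain ⟨j', -, h⟩ := he'
    simp only [Sym2.eq_iff, Fin.ext_iff] at h
    have := i.2
    have := j'.2
    omega
  have hsub : E1 ∪ E2 ⊆ (KG n).edgeFinset := by
    intro e he
    rw [mem_edgeFinset]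
    rcases Finset.mem_union.1 he with h | h
    · rw [hE1, Finset.mem_image] at h
      obtain ⟨⟨i, j⟩, -, rfl⟩ := h
      have := i.2
      refine ⟨fun h => ?_, Or.inl ⟨this, by simp⟩⟩
      simp only [Fin.ext_iff] at h
      omega
    · rw [hE2, Finset.mem_image] at h
      obtain ⟨j, -, rfl⟩ := h
      have := j.2
      refine ⟨fun h => ?_, Or.inr (Or.inr ⟨?_, ?_, ?_⟩)⟩
      · simp only [Fin.ext_iff] at h
        omega
      · simp only
        omega
      · simp only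
        omega
      · simp only
        omega
  have h1 := Finset.card_le_card hsub
  rw [Finset.card_union_of_disjoint hd, c1, c2] at h1
  refine le_trans ?_ h1
  unfold F pa
  rcases Nat.even_or_odd' n with ⟨m, rfl | rfl⟩
  · have e1 : (2 * m + 1) / 2 = m := by omega
    have e2 : 2 * m / 2 = m := by omega
    have e3 : (2 * m) ^ 2 / 4 = m * m := by
      have : (2 * m) ^ 2 = 4 * (m * m) := by ring
      omega
    rw [e1, e2, e3]
    omega
  · have e1 : (2 * m + 1 + 1) / 2 = m + 1 := by omega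
    have e2 : (2 * m + 1) / 2 = m := by omega
    have e3 : (2 * m + 1) ^ 2 / 4 = (m + 1) * m := by
      have : (2 * m + 1) ^ 2 = 4 * ((m + 1) * m) + 1 := by ring
      omega
    rw [e1, e2, e3]
    omega

/-- the extremal colourings -/
theorem exists_good {n t : ℕ} (ht : 2 * t ≤ F n) :
    ∃ (H : SimpleGraph (Fin n)) (c : Sym2 (Fin n) → ℕ), H.edgeFinset.card = 2 * t ∧
      (∀ e ∈ H.edgeFinset, (H.edgeFinset.filter (fun e' => c e' = c e)).card = 2) ∧
      ∀ x y z, H.Adj x y → H.Adj y z → H.Adj z x →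
        c s(x, y) = c s(y, z) ∨ c s(y, z) = c s(z, x) ∨ c s(z, x) = c s(x, y) := by
  obtain ⟨H, c, hH, hE, h2, h3⟩ := build (KG n) (KP n) KP_sub KP_disj (t := t)
    (ht.trans (KG_card n))
  refine ⟨H, c, hE, h2, ?_⟩
  intro x y z hxy hyz hzx
  obtain ⟨p, hp, hp2⟩ := KG_tri x y z (hH hxy) (hH hyz) (hH hzx)
  have h4 := h3 p hp
  rcases hp2 with rfl | rfl | rfl
  · exact Or.inl (h4 (by
      intro e he
      rw [Finset.mem_insert, Finset.mem_singleton] at he
      rcases he with rfl | rfl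
      · exact hxy
      · exact hyz) _ (by simp) _ (by simp))
  · exact Or.inr (Or.inl (h4 (by
      intro e he
      rw [Finset.mem_insert, Finset.mem_singleton] at he
      rcases he with rfl | rfl
      · exact hyz
      · exact hzx) _ (by simp) _ (by simp)))
  · exact Or.inr (Or.inr (h4 (by
      intro e he
      rw [Finset.mem_insert, Finset.mem_singleton] at he
      rcases he with rfl | rfl
      · exact hzx
      · exact hxy) _ (by simp) _ (by simp)))

/-- there is a pair colouring with `t` colours -/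
theorem exists_pair {n t : ℕ} (ht : 2 * t ≤ n.choose 2) :
    ∃ (H : SimpleGraph (Fin n)) (c : Sym2 (Fin n) → ℕ), H.edgeFinset.card = 2 * t ∧
      (∀ e ∈ H.edgeFinset, (H.edgeFinset.filter (fun e' => c e' = c e)).card = 2) := by
  have h1 : (⊤ : SimpleGraph (Fin n)).edgeFinset.card = n.choose 2 := by
    rw [card_edgeFinset_top_eq_card_choose_two, Fintype.card_fin]
  have h0 : ec (⊤ : SimpleGraph (Fin n)) = n.choose 2 := by
    rw [← h1]
    exact ec_eq _ _ fun e => by rw [mem_edgeFinset]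
  obtain ⟨H, c, hH, hE, h2, h3⟩ := build (⊤ : SimpleGraph (Fin n)) ∅ (by simp) (by simp) (t := t)
    (by
      change 2 * t ≤ ec (⊤ : SimpleGraph (Fin n))
      rw [h0]
      exact ht)
  exact ⟨H, c, hE, h2⟩

end Pool.Agent.H25.RG
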