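import Pool.Agent.H25.RG.Core

set_option autoImplicit false
set_option linter.unusedSectionVars false

/-! # Graphs with one edge of every colour: no rainbow cycle of length at most four -/

namespace Pool.Agent.H25.RG

open Finset SimpleGraph
open scoped Classical

variable {V : Type*} [Fintype V]

/-- no triangle and no four-cycle: the ball of radius two -/
lemma ball {H : SimpleGraph V} (h3 : ∀ x y z, H.Adj x y → H.Adj y z → H.Adj z x → False)
    (h4 : ∀ x y z w, H.Adj x y → H.Adj y z → H.Adj z w → H.Adj w x → x ≠ z → y ≠ w → False)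
    (v : V) : ∑ u ∈ H.neighborFinset v, H.degree u ≤ Fintype.card V - 1 := by
  have h1 : ∑ u ∈ H.neighborFinset v, H.degree u =
      ((H.neighborFinset v).sigma fun u => H.neighborFinset u).card := by
    rw [Finset.card_sigma]
    exact Finset.sum_congr rfl fun u _ => (card_neighborFinset_eq_degree H u).symm
  rw [h1, ← Finset.card_univ, ← Finset.card_erase_of_mem (Finset.mem_univ v)]
  refine Finset.card_le_card_of_injOn (fun p => if p.2 = v then p.1 else p.2) (fun p hp => ?_) ?_
  · rw [Finset.mem_coe, Finset.mem_sigma, mem_neighborFinset, mem_neighborFinset] at hp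
    rw [Finset.mem_coe, Finset.mem_erase]
    refine ⟨?_, Finset.mem_univ _⟩
    dsimp only
    split_ifs with h
    · exact hp.1.ne'
    · exact h
  · rintro ⟨u, w⟩ hp ⟨u', w'⟩ hp' heq
    rw [Finset.mem_coe, Finset.mem_sigma, mem_neighborFinset, mem_neighborFinset] at hp hp'
    dsimp only at hp hp' heq
    split_ifs at heq with a1 a2 a2
    · rw [a1, a2, heq]
    · subst heq
      exact (h3 v u u' hp.1 hp'.2.symm hp'.1.symm).elim
    · subst heq
      exact (h3 v w u hp'.1 hp.2.symm hp.1.symm).elim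
    · subst heq
      by_cases h : u = u'
      · rw [h]
      · exact (h4 v u w u' hp.1 hp.2 hp'.2.symm hp'.1.symm (Ne.symm a1) h).elim

lemma four_bound {H : SimpleGraph V} (h3 : ∀ x y z, H.Adj x y → H.Adj y z → H.Adj z x → False)
    (h4 : ∀ x y z w, H.Adj x y → H.Adj y z → H.Adj z w → H.Adj w x → x ≠ z → y ≠ w → False) :
    (2 * H.edgeFinset.card) ^ 2 ≤ Fintype.card V ^ 2 * (Fintype.card V - 1) := by
  have h1 : ∑ v : V, ∑ u ∈ H.neighborFinset v, H.degree u ≤
      ∑ _v : V, (Fintype.card V - 1) := Finset.sum_le_sum fun v _ => ball h3 h4 v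
  have h2 : ∑ v : V, ∑ u ∈ H.neighborFinset v, H.degree u = ∑ u : V, H.degree u ^ 2 := by
    have e1 : ∀ v, ∑ u ∈ H.neighborFinset v, H.degree u =
        ∑ u : V, if H.Adj v u then H.degree u else 0 := by
      intro v
      rw [← Finset.sum_filter]
      congr 1
      ext u
      simp
    simp_rw [e1]
    rw [Finset.sum_comm]
    refine Finset.sum_congr rfl fun u _ => ?_
    rw [← Finset.sum_filter, Finset.sum_const, smul_eq_mul, sq]
    congr 1
    rw [← card_neighborFinset_eq_degree]
    congr 1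
    ext v
    simp [adj_comm]
  rw [h2, Finset.sum_const, Finset.card_univ, smul_eq_mul] at h1
  have h5 := sq_sum_le_card_mul_sum_sq (s := (Finset.univ : Finset V)) (f := fun v => H.degree v)
  rw [sum_degrees_eq_twice_card_edges, Finset.card_univ] at h5
  calc _ ≤ _ := h5
    _ ≤ Fintype.card V * (Fintype.card V * (Fintype.card V - 1)) := Nat.mul_le_mul_left _ h1
    _ = _ := by ring

/-- one edge of every colour -/
lemma select {G : SimpleGraph V} {c : Sym2 V → ℕ} {t : ℕ} (hE : G.edgeFinset.card = 2 * t)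
    (h2 : ∀ e ∈ G.edgeFinset, (G.edgeFinset.filter (fun e' => c e' = c e)).card = 2) :
    ∃ H : SimpleGraph V, H ≤ G ∧ H.edgeFinset.card = t ∧
      ∀ e₁ ∈ H.edgeSet, ∀ e₂ ∈ H.edgeSet, c e₁ = c e₂ → e₁ = e₂ := by
  have h1 : ∀ k ∈ G.edgeFinset.image c, ∃ e ∈ G.edgeFinset, c e = k := by
    intro k hk
    simpa using hk
  rcases isEmpty_or_nonempty V with hV | hV
  · refine ⟨G, le_rfl, ?_, fun e _ => ?_⟩
    · have : G.edgeFinset.card = 0 := by
        rw [Finset.card_eq_zero]
        ext e
        induction e with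
        | _ x y => exact (hV.false x).elim
      omega
    · induction e with
      | _ x y => exact (hV.false x).elim
  have : Nonempty (Sym2 V) := ⟨s(Classical.arbitrary V, Classical.arbitrary V)⟩
  choose! g hg hgc using h1
  have h3 : (G.edgeFinset.image c).card = t := by
    have e1 := Finset.card_eq_sum_card_image c G.edgeFinset
    have e2 : ∑ k ∈ G.edgeFinset.image c, (G.edgeFinset.filter (fun e' => c e' = k)).card =
        ∑ k ∈ G.edgeFinset.image c, 2 := by
      refine Finset.sum_congr rfl fun k hk => ?_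
      obtain ⟨e, he, rfl⟩ := Finset.mem_image.1 hk
      exact h2 e he
    rw [e2, Finset.sum_const, smul_eq_mul, hE] at e1
    omega
  have h4 : ∀ e ∈ (G.edgeFinset.image c).image g, e ∈ G.edgeSet := by
    intro e he
    obtain ⟨k, hk, rfl⟩ := Finset.mem_image.1 he
    simpa using hg k hk
  have hs : ∀ e, e ∈ (fromEdgeSet (((G.edgeFinset.image c).image g : Finset (Sym2 V)) :
      Set (Sym2 V))).edgeSet ↔ e ∈ (G.edgeFinset.image c).image g := by
    intro e
    rw [edgeSet_fromEdgeSet]
    constructor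
    · intro h1
      simpa using h1.1
    · intro h1
      exact ⟨by simpa using h1, fun h2 => G.not_isDiag_of_mem_edgeSet (h4 e h1) h2⟩
  refine ⟨fromEdgeSet (((G.edgeFinset.image c).image g : Finset (Sym2 V)) : Set (Sym2 V)),
    ?_, ?_, ?_⟩
  · intro x y hxy
    exact h4 _ ((hs s(x, y)).1 hxy)
  · refine (ec_eq _ _ hs).trans ?_
    rw [Finset.card_image_of_injOn, h3]
    intro k hk k' hk' hkk
    rw [← hgc k hk, ← hgc k' hk', hkk]
  · intro e₁ he₁ e₂ he₂ hc
    rw [hs] at he₁ he₂
    obtain ⟨k, hk, rfl⟩ := Finset.mem_image.1 he₁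
    obtain ⟨k', hk', rfl⟩ := Finset.mem_image.1 he₂
    rw [hgc k hk, hgc k' hk'] at hc
    rw [hc]

/-- **no rainbow cycle of length 3 or 4**: few colours -/
theorem four {G : SimpleGraph V} {c : Sym2 V → ℕ} {t : ℕ} (hE : G.edgeFinset.card = 2 * t)
    (h2 : ∀ e ∈ G.edgeFinset, (G.edgeFinset.filter (fun e' => c e' = c e)).card = 2)
    (h3 : ∀ x y z, G.Adj x y → G.Adj y z → G.Adj z x →
      (c s(x, y) = c s(y, z) ∨ c s(y, z) = c s(z, x) ∨ c s(z, x) = c s(x, y)))
    (h4 : ∀ x y z w, G.Adj x y → G.Adj y z → G.Adj z w → G.Adj w x → x ≠ z → y ≠ w →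
      ¬ ([c s(x, y), c s(y, z), c s(z, w), c s(w, x)] : List ℕ).Nodup) :
    (2 * t) ^ 2 ≤ Fintype.card V ^ 2 * (Fintype.card V - 1) := by
  obtain ⟨H, hH, hc, hi⟩ := select hE h2
  rw [← hc]
  refine four_bound ?_ ?_
  · intro x y z hxy hyz hzx
    have n1 := hxy.ne
    have n2 := hyz.ne
    have n3 := hzx.ne
    rcases h3 x y z (hH hxy) (hH hyz) (hH hzx) with h | h | h
    · have := hi _ hxy _ hyz h
      simp at this
      grind
    · have := hi _ hyz _ hzx h
      simp at this
      grind
    · have := hi _ hzx _ hxy h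
      simp at this
      grind
  · intro x y z w hxy hyz hzw hwx hxz hyw
    have n1 := hxy.ne
    have n2 := hyz.ne
    have n3 := hzw.ne
    have n4 := hwx.ne
    apply h4 x y z w (hH hxy) (hH hyz) (hH hzw) (hH hwx) hxz hyw
    have i1 := hi s(x, y) hxy s(y, z) hyz
    have i2 := hi s(x, y) hxy s(z, w) hzw
    have i3 := hi s(x, y) hxy s(w, x) hwx
    have i4 := hi s(y, z) hyz s(z, w) hzw
    have i5 := hi s(y, z) hyz s(w, x) hwx
    have i6 := hi s(z, w) hzw s(w, x) hwx
    simp only [Sym2.eq_iff] at i1 i2 i3 i4 i5 i6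
    simp only [List.nodup_cons, List.mem_cons, List.not_mem_nil, or_false, not_false_eq_true,
      List.nodup_nil, and_true]
    grind

end Pool.Agent.H25.RG
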