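import Pool.Agent.H25.RG.Build

set_option autoImplicit false
set_option linter.unusedSectionVars false

/-! # Doubling the arcs of a graph of girth `g`: rainbow cycles have length at least `g / 2` -/

namespace Pool.Agent.H25.RG

open Finset SimpleGraph
open scoped Classical

variable {V : Type*}

/-! ### crossings of a closed walk -/

/-- exactly one end of the edge is in `S` -/
def Cross (S : V → Prop) (e : Sym2 V) : Prop := ∃ u v, e = s(u, v) ∧ S u ∧ ¬ S v

lemma cross_mk {S : V → Prop} {u v : V} : Cross S s(u, v) ↔ ¬ (S u ↔ S v) := by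
  constructor
  · rintro ⟨u', v', h, h1, h2⟩
    rw [Sym2.eq_iff] at h
    rcases h with ⟨rfl, rfl⟩ | ⟨rfl, rfl⟩ <;> tauto
  · intro h
    by_cases hu : S u
    · exact ⟨u, v, rfl, hu, fun hv => h ⟨fun _ => hv, fun _ => hu⟩⟩
    · by_cases hv : S v
      · exact ⟨v, u, Sym2.eq_swap, hv, hu⟩
      · exact absurd ⟨fun h => absurd h hu, fun h => absurd h hv⟩ h

lemma even_cross {G : SimpleGraph V} (S : V → Prop) {a b : V} (p : G.Walk a b) :
    Even (p.edges.filter (fun e => decide (Cross S e))).length ↔ (S a ↔ S b) := by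
  induction p with
  | nil => simp
  | @cons a c b h q ih =>
    rw [Walk.edges_cons, List.filter_cons]
    by_cases hc : Cross S s(a, c)
    · rw [if_pos (by simpa using hc), List.length_cons, Nat.even_add_one, ih]
      rw [cross_mk] at hc
      tauto
    · rw [if_neg (by simpa using hc), ih]
      rw [cross_mk] at hc
      tauto

lemma other_cross {G : SimpleGraph V} {S : V → Prop} {a : V} (p : G.Walk a a)
    (hp : p.edges.Nodup) {e : Sym2 V} (he : e ∈ p.edges) (hc : Cross S e) :
    ∃ e' ∈ p.edges, e' ≠ e ∧ Cross S e' := by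
  by_contra hcon
  push Not at hcon
  have h1 := (even_cross S p).2 Iff.rfl
  have h2 : p.edges.filter (fun e => decide (Cross S e)) = [e] := by
    have hn : (p.edges.filter (fun e => decide (Cross S e))).Nodup := hp.filter _
    have hm : ∀ e', e' ∈ p.edges.filter (fun e => decide (Cross S e)) ↔ e' = e := by
      intro e'
      rw [List.mem_filter]
      constructor
      · rintro ⟨h3, h4⟩
        by_contra hne
        exact hcon e' h3 hne (by simpa using h4)
      · rintro rfl
        exact ⟨he, by simpa using hc⟩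
    have h3 : (p.edges.filter (fun e => decide (Cross S e))).toFinset = {e} := by
      ext e'
      rw [List.mem_toFinset, hm, Finset.mem_singleton]
    have h4 := List.toFinset_card_of_nodup hn
    rw [h3, Finset.card_singleton] at h4
    obtain ⟨x, hx⟩ := List.length_eq_one_iff.1 h4.symm
    rw [hx]
    have := (hm x).1 (by rw [hx]; simp)
    rw [this]
  rw [h2] at h1
  simp at h1

/-! ### the arcs and their pairs -/

/-- an orientation `o` of `H` and an out-neighbour `nx x` of every vertex `x` -/
structure Nx (H : SimpleGraph V) (nx : V → V) (o : V → V → Prop) : Prop where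
  o_adj : ∀ x y, o x y → H.Adj x y
  o_tot : ∀ x y, H.Adj x y → o x y ∨ o y x
  o_asymm : ∀ x y, o x y → ¬ o y x
  o_nx : ∀ x, o x (nx x)

section
variable {H : SimpleGraph V} {nx : V → V} {o : V → V → Prop} (N : Nx H nx o)
include N

lemma Nx.back {x y : V} (h : o x y) : nx y ≠ x := by
  intro h1
  have := N.o_nx y
  rw [h1] at this
  exact N.o_asymm x y h this

lemma Nx.eq_of_mk {x y x' y' : V} (h : o x y) (h' : o x' y') (he : s(x, y) = s(x', y')) :
    x = x' ∧ y = y' := by
  rw [Sym2.eq_iff] at he
  rcases he with he | ⟨rfl, rfl⟩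
  · exact he
  · exact (N.o_asymm _ _ h h').elim

lemma Nx.uniq (h3 : ∀ x y z, H.Adj x y → H.Adj y z → H.Adj z x → False)
    (h4 : ∀ x y z w, H.Adj x y → H.Adj y z → H.Adj z w → H.Adj w x → x ≠ z → y ≠ w → False)
    {x y x' y' : V} (h : o x y) (h' : o x' y') {e : Sym2 V}
    (he : e = s(x, y) ∨ e = s(x, nx y)) (he' : e = s(x', y') ∨ e = s(x', nx y')) :
    x = x' ∧ y = y' := by
  have a1 := N.o_adj _ _ h
  have a2 := N.o_adj _ _ h'
  have a3 := N.o_adj _ _ (N.o_nx y)
  have a4 := N.o_adj _ _ (N.o_nx y')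
  have b1 := N.back h
  have b2 := N.back h'
  rcases he with he | he <;> rcases he' with he' | he'
  · exact N.eq_of_mk h h' (he.symm.trans he')
  · exfalso
    have h5 := he.symm.trans he'
    rw [Sym2.eq_iff] at h5
    rcases h5 with ⟨rfl, rfl⟩ | ⟨rfl, rfl⟩
    · exact h3 _ _ _ a2 a4 a1.symm
    · exact h3 _ _ _ a2 a4 a1
  · exfalso
    have h5 := he'.symm.trans he
    rw [Sym2.eq_iff] at h5
    rcases h5 with ⟨rfl, rfl⟩ | ⟨rfl, rfl⟩
    · exact h3 _ _ _ a1 a3 a2.symm
    · exact h3 _ _ _ a1 a3 a2
  · have h5 := he.symm.trans he'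
    rw [Sym2.eq_iff] at h5
    rcases h5 with ⟨rfl, h6⟩ | ⟨h6, h7⟩
    · by_cases hy : y = y'
      · exact ⟨rfl, hy⟩
      · exfalso
        rw [← h6] at a4
        exact h4 x y (nx y) y' a1 a3 a4.symm a2.symm (Ne.symm b1) hy
    · exfalso
      by_cases hy : y = y'
      · subst hy
        exact b1 h6.symm
      · rw [← h6] at a4
        rw [h7] at a3 b1
        exact h4 x y x' y' a1 a3 a2 a4 (Ne.symm b1) hy

/-- **the main lemma**: a cycle using at most one edge of each pair is at least half as long as the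
girth -/
theorem Nx.rainbow [Fintype V]
    (h3 : ∀ x y z, H.Adj x y → H.Adj y z → H.Adj z x → False)
    (h4 : ∀ x y z w, H.Adj x y → H.Adj y z → H.Adj z w → H.Adj w x → x ≠ z → y ≠ w → False)
    {G : SimpleGraph V} (hG : ∀ e ∈ G.edgeSet, ∃ x y, o x y ∧ (e = s(x, y) ∨ e = s(x, nx y)))
    {v₀ : V} (p : G.Walk v₀ v₀) (hp : p.IsCycle)
    (hr : ∀ x y, o x y → s(x, y) ∈ p.edges → s(x, nx y) ∉ p.edges) :
    H.egirth ≤ 2 * (p.length : ℕ∞) := by
  by_contra hcon
  rw [not_le] at hcon
  have hnd : p.edges.Nodup := hp.isTrail.edges_nodup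
  -- the arcs used by the cycle
  set A : Finset (V × V) := Finset.univ.filter
    (fun a => o a.1 a.2 ∧ (s(a.1, a.2) ∈ p.edges ∨ s(a.1, nx a.2) ∈ p.edges)) with hA
  have mem_A : ∀ x y, (x, y) ∈ A ↔ o x y ∧ (s(x, y) ∈ p.edges ∨ s(x, nx y) ∈ p.edges) := by
    intro x y
    rw [hA, Finset.mem_filter]
    simp
  have hAc : A.card ≤ p.length := by
    rw [← Walk.length_edges, ← List.toFinset_card_of_nodup hnd]
    refine Finset.card_le_card_of_injOn
      (fun a => if s(a.1, a.2) ∈ p.edges then s(a.1, a.2) else s(a.1, nx a.2)) ?_ ?_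
    · rintro ⟨x, y⟩ ha
      rw [Finset.mem_coe, mem_A] at ha
      rw [Finset.mem_coe, List.mem_toFinset]
      dsimp only
      split_ifs with h
      · exact h
      · exact ha.2.resolve_left h
    · rintro ⟨x, y⟩ ha ⟨x', y'⟩ ha' heq
      rw [Finset.mem_coe, mem_A] at ha ha'
      dsimp only at heq
      have h5 : x = x' ∧ y = y' := by
        refine N.uniq h3 h4 ha.1 ha'.1 (e := if s(x, y) ∈ p.edges then s(x, y) else s(x, nx y))
          ?_ ?_
        · split_ifs
          · exact Or.inl rfl
          · exact Or.inr rfl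
        · rw [heq]
          split_ifs
          · exact Or.inl rfl
          · exact Or.inr rfl
      rw [h5.1, h5.2]
  -- the edges of `H` below
  obtain ⟨K, hK⟩ : ∃ K : SimpleGraph V, ∀ u v, K.Adj u v ↔ ∃ a ∈ A, s(u, v) = s(a.1, a.2) ∨
      s(u, v) = s(a.2, nx a.2) := by
    refine ⟨fromEdgeSet {e | ∃ a ∈ A, e = s(a.1, a.2) ∨ e = s(a.2, nx a.2)}, fun u v => ?_⟩
    rw [fromEdgeSet_adj]
    constructor
    · intro h
      exact h.1
    · rintro ⟨⟨x, y⟩, ha, h⟩
      refine ⟨⟨(x, y), ha, h⟩, ?_⟩
      rintro rfl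
      rw [mem_A] at ha
      rcases h with h | h
      · have h5 : H.Adj u u := by
          have := N.o_adj _ _ ha.1
          rw [← mem_edgeSet] at this ⊢
          rw [h]
          exact this
        exact h5.ne rfl
      · have h5 : H.Adj u u := by
          have := N.o_adj _ _ (N.o_nx y)
          rw [← mem_edgeSet] at this ⊢
          rw [h]
          exact this
        exact h5.ne rfl
  have hKH : K ≤ H := by
    intro u v huv
    obtain ⟨⟨x, y⟩, ha, h⟩ := (hK u v).1 huv
    rw [mem_A] at ha
    rw [← mem_edgeSet]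
    rcases h with h | h
    · rw [h]
      exact N.o_adj _ _ ha.1
    · rw [h]
      exact N.o_adj _ _ (N.o_nx y)
  have hKc : ∀ L : List (Sym2 V), L.Nodup → (∀ e ∈ L, e ∈ K.edgeSet) → L.length ≤ 2 * p.length := by
    intro L hL hLK
    have h5 : L.toFinset ⊆ A.image (fun a => s(a.1, a.2)) ∪ A.image (fun a => s(a.2, nx a.2)) := by
      intro e he
      rw [List.mem_toFinset] at he
      have := hLK e he
      induction e with
      | _ u v =>
        obtain ⟨a, ha, h | h⟩ := (hK u v).1 this
        · exact Finset.mem_union_left _ (Finset.mem_image.2 ⟨a, ha, h.symm⟩)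
        · exact Finset.mem_union_right _ (Finset.mem_image.2 ⟨a, ha, h.symm⟩)
    have h6 := (Finset.card_le_card h5).trans (Finset.card_union_le _ _)
    have h7 : (A.image (fun a => s(a.1, a.2))).card ≤ A.card := Finset.card_image_le
    have h8 : (A.image (fun a => s(a.2, nx a.2))).card ≤ A.card := Finset.card_image_le
    rw [List.toFinset_card_of_nodup hL] at h6
    omega
  have hac : K.IsAcyclic := by
    intro a w hw
    have h5 := hKc w.edges hw.isTrail.edges_nodup (fun e he => w.edges_subset_edgeSet he)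
    have h6 : H.egirth ≤ ((w.mapLe hKH).length : ℕ∞) := egirth_le_length (hw.mapLe hKH)
    rw [Walk.length_edges] at h5
    have h7 : (w.mapLe hKH).length = w.length := by simp
    rw [h7] at h6
    have h8 : (w.length : ℕ∞) ≤ 2 * (p.length : ℕ∞) := by exact_mod_cast h5
    exact absurd (h6.trans h8) (not_le.2 hcon)
  -- every arc of `A` has a predecessor
  have key : ∀ x y, (x, y) ∈ A → nx x = y ∧ ∃ u, (u, x) ∈ A := by
    intro x y hxy
    have hoxy := ((mem_A x y).1 hxy).1
    have hKxy : K.Adj x y := (hK x y).2 ⟨(x, y), hxy, Or.inl rfl⟩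
    set S : V → Prop := fun w => (K.deleteEdges {s(x, y)}).Reachable w y with hS
    have hbr : K.IsBridge s(x, y) := isAcyclic_iff_forall_isBridge.1 hac (e := s(x, y)) hKxy
    rw [isBridge_iff] at hbr
    have hSx : ¬ S x := hbr
    have hSy : S y := Reachable.refl _
    have step : ∀ u v, K.Adj u v → s(u, v) ≠ s(x, y) → (S u ↔ S v) := by
      intro u v huv hne
      have h5 : (K.deleteEdges {s(x, y)}).Adj u v := by
        rw [deleteEdges_adj]
        exact ⟨huv, by simpa using hne⟩
      exact ⟨fun h => h5.symm.reachable.trans h, fun h => h5.reachable.trans h⟩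
    have hSn : S (nx y) := by
      refine (step y (nx y) ((hK _ _).2 ⟨(x, y), hxy, Or.inr rfl⟩) ?_).1 hSy
      intro h5
      rw [Sym2.eq_iff] at h5
      have := N.back hoxy
      have h6 := (N.o_adj _ _ hoxy).ne
      rcases h5 with h5 | h5
      · exact h6 h5.1.symm
      · exact this h5.2
    obtain ⟨e, he, hex⟩ : ∃ e ∈ p.edges, e = s(x, y) ∨ e = s(x, nx y) := by
      rcases ((mem_A x y).1 hxy).2 with h | h
      · exact ⟨_, h, Or.inl rfl⟩
      · exact ⟨_, h, Or.inr rfl⟩
    have hce : Cross S e := by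
      rcases hex with rfl | rfl
      · rw [cross_mk]
        tauto
      · rw [cross_mk]
        tauto
    obtain ⟨e', he', hne, hce'⟩ := other_cross p hnd he hce
    obtain ⟨u, v, huv, he'2⟩ := hG e' (p.edges_subset_edgeSet he')
    have huA : (u, v) ∈ A := by
      rw [mem_A]
      refine ⟨huv, ?_⟩
      rcases he'2 with rfl | rfl
      · exact Or.inl he'
      · exact Or.inr he'
    have hKuv : K.Adj u v := (hK u v).2 ⟨(u, v), huA, Or.inl rfl⟩
    have hKv : K.Adj v (nx v) := (hK _ _).2 ⟨(u, v), huA, Or.inr rfl⟩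
    have hdiff : s(u, v) ≠ s(x, y) := by
      intro h5
      obtain ⟨rfl, rfl⟩ := N.eq_of_mk huv hoxy h5
      rcases hex with rfl | rfl <;> rcases he'2 with rfl | rfl
      · exact hne rfl
      · exact hr _ _ hoxy he he'
      · exact hr _ _ hoxy he' he
      · exact hne rfl
    have h5 := step u v hKuv hdiff
    rcases he'2 with rfl | rfl
    · rw [cross_mk] at hce'
      exact absurd h5 hce'
    · rw [cross_mk] at hce'
      by_cases h6 : s(v, nx v) = s(x, y)
      · obtain ⟨rfl, h7⟩ := N.eq_of_mk (N.o_nx v) hoxy h6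
        exact ⟨h7, u, huA⟩
      · exact absurd (h5.trans (step v (nx v) hKv h6)) hce'
  -- a long directed walk in the forest
  have chain : ∀ n : ℕ, ∃ a, (a, nx a) ∈ A ∧ ∃ w, ∃ q : K.Walk (nx a) w, q.length = n ∧
      List.IsChain (· ≠ ·) (s(a, nx a) :: q.edges) := by
    intro n
    induction n with
    | zero =>
      have hne : p.edges ≠ [] := by
        intro h5
        have h6 := hp.three_le_length
        rw [← Walk.length_edges, h5] at h6
        simp at h6
      obtain ⟨e, he⟩ := List.exists_mem_of_ne_nil _ hne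
      obtain ⟨x, y, hxy, he2⟩ := hG e (p.edges_subset_edgeSet he)
      have hA0 : (x, y) ∈ A := by
        rw [mem_A]
        refine ⟨hxy, ?_⟩
        rcases he2 with rfl | rfl
        · exact Or.inl he
        · exact Or.inr he
      have h5 := (key x y hA0).1
      refine ⟨x, by rw [h5]; exact hA0, _, Walk.nil, rfl, ?_⟩
      simp
    | succ n ih =>
      obtain ⟨a, ha, w, q, hq, hch⟩ := ih
      obtain ⟨u, hu⟩ := (key a (nx a) ha).2
      have h5 := (key u a hu).1
      have hadj : K.Adj (nx u) (nx a) := by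
        rw [h5]
        exact (hK _ _).2 ⟨(a, nx a), ha, Or.inl rfl⟩
      refine ⟨u, by rw [h5]; exact hu, w, Walk.cons hadj q, by simp [hq], ?_⟩
      rw [Walk.edges_cons, List.isChain_cons_cons]
      constructor
      · rw [h5]
        intro h6
        rw [Sym2.eq_iff] at h6
        have h7 := N.back ((mem_A u a).1 hu).1
        have h8 := (N.o_adj _ _ ((mem_A u a).1 hu).1).ne
        rcases h6 with h6 | h6
        · exact h8 h6.1
        · exact h7 h6.1.symm
      · rw [h5]
        exact hch
  obtain ⟨a, ha, w, q, hq, hch⟩ := chain (Fintype.card V)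
  have h5 : q.IsPath := (hac.isPath_iff_isChain q).2 (List.isChain_cons.1 hch).2
  have h6 := h5.length_lt
  omega

end

end Pool.Agent.H25.RG
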