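import Pool.Agent.H25.RG.Half

set_option autoImplicit false
set_option linter.unusedSectionVars false

/-! # Existence of the orientation; the doubled graph -/

namespace Pool.Agent.H25.RG

open Finset SimpleGraph
open scoped Classical

variable {V : Type*} [Fintype V]

/-- orientation with a chosen out-neighbour -/
lemma exists_nx (H : SimpleGraph V) (hc : H.Connected) (hE : Fintype.card V ≤ H.edgeFinset.card) :
    ∃ (nx : V → V) (o : V → V → Prop), Nx H nx o := by
  obtain ⟨T, hTH, hT⟩ := hc.exists_isTree_le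
  have hTc := hT.card_edgeFinset
  obtain ⟨e, he, heT⟩ : ∃ e ∈ H.edgeFinset, e ∉ T.edgeFinset := by
    by_contra hcon
    push Not at hcon
    have := Finset.card_le_card (show H.edgeFinset ⊆ T.edgeFinset from hcon)
    omega
  rw [mem_edgeFinset] at he heT
  induction e with
  | _ a b =>
    have hab : H.Adj a b := he
    have habT : ¬ T.Adj a b := heT
    have hstep : ∀ x, ∃ p, x ≠ a → T.Adj x p ∧ T.dist p a < T.dist x a := by
      intro x
      by_cases hx : x = a
      · exact ⟨x, fun h => absurd hx h⟩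
      · obtain ⟨w, hw⟩ := hT.connected.exists_walk_length_eq_dist x a
        cases w with
        | nil => exact absurd rfl hx
        | @cons _ p _ h q =>
          refine ⟨p, fun _ => ⟨h, ?_⟩⟩
          have h1 := SimpleGraph.dist_le q
          rw [Walk.length_cons] at hw
          omega
    choose f hf using hstep
    set nx : V → V := fun x => if x = a then b else f x with hnx
    have nxa : nx a = b := by rw [hnx]; simp
    have nxo : ∀ x, x ≠ a → nx x = f x := by
      intro x hx
      rw [hnx]
      simp [hx]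
    have hadj : ∀ x, H.Adj x (nx x) := by
      intro x
      by_cases hx : x = a
      · rw [hx, nxa]
        exact hab
      · rw [nxo x hx]
        exact hTH (hf x hx).1
    have hback : ∀ x, nx (nx x) ≠ x := by
      intro x hxx
      by_cases hx : x = a
      · subst hx
        rw [nxa] at hxx
        have hb : b ≠ x := hab.ne'
        rw [nxo b hb] at hxx
        have := (hf b hb).1
        rw [hxx] at this
        exact habT this.symm
      · rw [nxo x hx] at hxx
        have h1 := hf x hx
        by_cases hp : f x = a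
        · rw [hp, nxa] at hxx
          rw [hp, ← hxx] at h1
          exact habT h1.1.symm
        · rw [nxo _ hp] at hxx
          have h2 := hf _ hp
          rw [hxx] at h2
          omega
    set ix := Fintype.equivFin V
    refine ⟨nx, fun x y => H.Adj x y ∧ (nx x = y ∨ (nx y ≠ x ∧ ix x < ix y)), ?_, ?_, ?_, ?_⟩
    · exact fun x y h => h.1
    · intro x y h
      by_cases h1 : nx x = y
      · exact Or.inl ⟨h, Or.inl h1⟩
      by_cases h2 : nx y = x
      · exact Or.inr ⟨h.symm, Or.inl h2⟩
      have h3 : ix x ≠ ix y := fun h3 => h.ne (ix.injective h3)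
      rcases lt_or_gt_of_ne h3 with h3 | h3
      · exact Or.inl ⟨h, Or.inr ⟨h2, h3⟩⟩
      · exact Or.inr ⟨h.symm, Or.inr ⟨h1, h3⟩⟩
    · rintro x y ⟨h, h1⟩ ⟨h', h2⟩
      rcases h1 with h1 | h1 <;> rcases h2 with h2 | h2
      · rw [← h1] at h2
        exact hback x h2
      · exact h2.1 h1
      · exact h1.1 h2
      · exact absurd (h1.2.trans h2.2) (lt_irrefl _)
    · exact fun x => ⟨hadj x, Or.inl rfl⟩

/-- an edge-maximal graph of girth at least `g` is connected -/
lemma exists_max [Nonempty V] (H : SimpleGraph V) : ∃ H₁ : SimpleGraph V, H ≤ H₁ ∧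
    H.egirth ≤ H₁.egirth ∧ H₁.Connected := by
  have hfin : {H' : SimpleGraph V | H ≤ H' ∧ H.egirth ≤ H'.egirth}.Finite := Set.toFinite _
  obtain ⟨H₁, hm⟩ := hfin.exists_maximal ⟨H, le_rfl, le_rfl⟩
  refine ⟨H₁, hm.prop.1, hm.prop.2, ?_⟩
  rw [connected_iff]
  refine ⟨?_, inferInstance⟩
  intro x y
  by_contra hxy
  have hne : x ≠ y := fun h => hxy (h ▸ Reachable.refl _)
  have h2 : (H₁ ⊔ edge x y) ∈ {H' : SimpleGraph V | H ≤ H' ∧ H.egirth ≤ H'.egirth} := by
    refine ⟨hm.prop.1.trans le_sup_left, ?_⟩
    rw [le_egirth]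
    intro a w hw
    have hb : (H₁ ⊔ edge x y).IsBridge s(x, y) :=
      isBridge_sup_edge.2 (IsBridge.of_not_reachable hxy)
    have hnot := hb.notMem_edges_of_isCycle hw
    have htr : ∀ e ∈ w.edges, e ∈ H₁.edgeSet := by
      intro e he
      have h3 := w.edges_subset_edgeSet he
      rw [edgeSet_sup] at h3
      rcases h3 with h3 | h3
      · exact h3
      · exfalso
        apply hnot
        have h4 : e = s(x, y) := by
          induction e with
          | _ u v =>
            rw [mem_edgeSet, edge_adj] at h3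
            rw [Sym2.eq_iff]
            tauto
        rw [← h4]
        exact he
    have h5 := le_egirth.1 hm.prop.2 a (w.transfer H₁ htr) (hw.transfer htr)
    simpa using h5
  have h3 := hm.le_of_ge h2 le_sup_left
  have h4 : (H₁ ⊔ edge x y).Adj x y := Or.inr (by rw [edge_adj]; exact ⟨Or.inl ⟨rfl, rfl⟩, hne⟩)
  exact hxy (h3 h4).reachable

lemma no3 {H : SimpleGraph V} (h : 5 ≤ H.egirth) (x y z : V) (hxy : H.Adj x y) (hyz : H.Adj y z)
    (hzx : H.Adj z x) : False := by
  have n1 := hxy.ne
  have n2 := hyz.ne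
  have n3 := hzx.ne
  have hp : (Walk.cons hxy (Walk.cons hyz (Walk.cons hzx Walk.nil))).IsCycle := by
    rw [Walk.cons_isCycle_iff]
    simp
    grind
  have h1 := h.trans (egirth_le_length hp)
  simp only [Walk.length_cons, Walk.length_nil] at h1
  norm_num at h1

lemma no4 {H : SimpleGraph V} (h : 5 ≤ H.egirth) (x y z w : V) (hxy : H.Adj x y)
    (hyz : H.Adj y z) (hzw : H.Adj z w) (hwx : H.Adj w x) (hxz : x ≠ z) (hyw : y ≠ w) : False := by
  have n1 := hxy.ne
  have n2 := hyz.ne
  have n3 := hzw.ne
  have n4 := hwx.ne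
  have hp : (Walk.cons hxy (Walk.cons hyz (Walk.cons hzw (Walk.cons hwx Walk.nil)))).IsCycle := by
    rw [Walk.cons_isCycle_iff]
    simp
    grind
  have h1 := h.trans (egirth_le_length hp)
  simp only [Walk.length_cons, Walk.length_nil] at h1
  norm_num at h1

/-- **doubling**: from a graph of girth `g ≥ 5` with at least as many edges as vertices, a pair
colouring without rainbow cycles shorter than `g / 2` -/
theorem exists_half {t : ℕ} (H : SimpleGraph V) (hE : H.edgeFinset.card = t)
    (hVt : Fintype.card V ≤ t) (hg : 5 ≤ H.egirth) :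
    ∃ (G : SimpleGraph V) (c : Sym2 V → ℕ), G.edgeFinset.card = 2 * t ∧
      (∀ e ∈ G.edgeFinset, (G.edgeFinset.filter (fun e' => c e' = c e)).card = 2) ∧
      ∀ (v : V) (p : G.Walk v v), p.IsCycle → (p.edges.map c).Nodup →
        H.egirth ≤ 2 * (p.length : ℕ∞) := by
  rcases isEmpty_or_nonempty V with hV | hV
  · have : t = 0 := by
      rw [← hE, Finset.card_eq_zero]
      ext e
      induction e with
      | _ x y => exact (hV.false x).elim
    subst this
    refine ⟨⊥, fun _ => 0, ?_, ?_, ?_⟩
    · refine (ec_eq (⊥ : SimpleGraph V) ∅ fun e => by simp).trans rfl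
    · intro e he
      induction e with
      | _ x y => exact (hV.false x).elim
    · intro v
      exact (hV.false v).elim
  obtain ⟨H₁, hH₁, hg₁, hc₁⟩ := exists_max H
  have hE₁ : t ≤ H₁.edgeFinset.card := by
    rw [← hE]
    refine Finset.card_le_card fun e he => ?_
    rw [mem_edgeFinset] at he ⊢
    exact edgeSet_mono hH₁ he
  obtain ⟨nx, o, N⟩ := exists_nx H₁ hc₁ (hVt.trans hE₁)
  have h3 := no3 (hg.trans hg₁)
  have h4 := no4 (hg.trans hg₁)
  set ar : Finset (V × V) := Finset.univ.filter (fun a => o a.1 a.2) with har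
  have mem_ar : ∀ x y, (x, y) ∈ ar ↔ o x y := by
    intro x y
    rw [har, Finset.mem_filter]
    simp
  set pr : V × V → Finset (Sym2 V) := fun a => {s(a.1, a.2), s(a.1, nx a.2)} with hpr
  obtain ⟨G', hG'⟩ : ∃ G' : SimpleGraph V, ∀ e, e ∈ G'.edgeSet ↔ ∃ x y, o x y ∧
      (e = s(x, y) ∨ e = s(x, nx y)) := by
    refine ⟨fromEdgeSet {e | ∃ x y, o x y ∧ (e = s(x, y) ∨ e = s(x, nx y))}, fun e => ?_⟩
    rw [edgeSet_fromEdgeSet]
    constructor
    · intro h
      exact h.1
    · rintro ⟨x, y, hxy, h⟩
      refine ⟨⟨x, y, hxy, h⟩, ?_⟩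
      have n1 := (N.o_adj _ _ hxy).ne
      have n2 := N.back hxy
      rcases h with rfl | rfl
      · simpa using n1
      · simpa using n2.symm
  have hpair : ∀ a ∈ ar, (∀ e ∈ pr a, e ∈ G'.edgeSet) ∧ (pr a).card = 2 := by
    rintro ⟨x, y⟩ ha
    rw [mem_ar] at ha
    constructor
    · intro e he
      rw [hpr, Finset.mem_insert, Finset.mem_singleton] at he
      exact (hG' e).2 ⟨x, y, ha, he⟩
    · rw [hpr, Finset.card_pair]
      have n1 := (N.o_adj _ _ (N.o_nx y)).ne
      have n2 := N.back ha
      intro h5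
      rw [Sym2.eq_iff] at h5
      rcases h5 with h5 | h5
      · exact n1 h5.2
      · exact n2 h5.1.symm
  have huniq : ∀ a ∈ ar, ∀ b ∈ ar, ∀ e, e ∈ pr a → e ∈ pr b → a = b := by
    rintro ⟨x, y⟩ ha ⟨x', y'⟩ hb e he he'
    rw [mem_ar] at ha hb
    rw [hpr, Finset.mem_insert, Finset.mem_singleton] at he he'
    obtain ⟨h5, h6⟩ := N.uniq h3 h4 ha hb he he'
    rw [h5, h6]
  have hP : ∀ p ∈ ar.image pr, (∀ e ∈ p, e ∈ G'.edgeSet) ∧ p.card = 2 := by
    intro p hp
    obtain ⟨a, ha, rfl⟩ := Finset.mem_image.1 hp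
    exact hpair a ha
  have hd : ∀ p ∈ ar.image pr, ∀ p' ∈ ar.image pr, p ≠ p' → Disjoint p p' := by
    intro p hp p' hp' hne
    obtain ⟨a, ha, rfl⟩ := Finset.mem_image.1 hp
    obtain ⟨b, hb, rfl⟩ := Finset.mem_image.1 hp'
    rw [Finset.disjoint_left]
    intro e he he'
    exact hne (by rw [huniq a ha b hb e he he'])
  have hcard : 2 * t ≤ G'.edgeFinset.card := by
    have c1 : (ar.biUnion pr).card = 2 * ar.card := by
      rw [Finset.card_biUnion]
      · exact (Finset.sum_const_nat (m := 2) fun a ha => (hpair a ha).2).trans (mul_comm _ _)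
      · intro a ha b hb hne
        change Disjoint (pr a) (pr b)
        rw [Finset.disjoint_left]
        intro e he he'
        exact hne (huniq a ha b hb e he he')
    have c2 : H₁.edgeFinset ⊆ ar.image (fun a => s(a.1, a.2)) := by
      intro e he
      rw [mem_edgeFinset] at he
      induction e with
      | _ x y =>
        rcases N.o_tot x y he with h | h
        · exact Finset.mem_image.2 ⟨(x, y), (mem_ar _ _).2 h, rfl⟩
        · exact Finset.mem_image.2 ⟨(y, x), (mem_ar _ _).2 h, Sym2.eq_swap⟩
    have c3 := (Finset.card_le_card c2).trans Finset.card_image_le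
    have c4 : ar.biUnion pr ⊆ G'.edgeFinset := by
      intro e he
      obtain ⟨a, ha, hea⟩ := Finset.mem_biUnion.1 he
      rw [mem_edgeFinset]
      exact (hpair a ha).1 e hea
    have c5 := Finset.card_le_card c4
    omega
  obtain ⟨G, c, hGG', hcG, hcl, hpc⟩ := build G' (ar.image pr) hP hd hcard
  refine ⟨G, c, hcG, hcl, ?_⟩
  intro v p hp hnd
  refine hg₁.trans (N.rainbow h3 h4 (G := G) ?_ p hp ?_)
  · intro e he
    exact (hG' e).1 (edgeSet_mono hGG' he)
  · intro x y hxy h5 h6
    have h7 : c s(x, y) = c s(x, nx y) := by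
      refine hpc (pr (x, y)) (Finset.mem_image.2 ⟨(x, y), (mem_ar _ _).2 hxy, rfl⟩) ?_ _ ?_ _ ?_
      · intro e he
        rw [hpr, Finset.mem_insert, Finset.mem_singleton] at he
        rcases he with rfl | rfl
        · exact p.edges_subset_edgeSet h5
        · exact p.edges_subset_edgeSet h6
      · rw [hpr]
        simp
      · rw [hpr]
        simp
    have h8 := List.inj_on_of_nodup_map hnd h5 h6 h7
    rw [Sym2.eq_iff] at h8
    have n1 := (N.o_adj _ _ (N.o_nx y)).ne
    have n2 := N.back hxy
    rcases h8 with h8 | h8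
    · exact n1 h8.2
    · exact n2 h8.1.symm

end Pool.Agent.H25.RG
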