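import Pool.Agent.H25.RG.Four
import Pool.Agent.H25.RG.Ext
import Pool.Agent.H25.RG.Half2

set_option autoImplicit false

/-! # `g(n,t) / 2 ≤ f(n,t) ≤ g(n,t)` for all `t ≥ n` -/

namespace Pool.Agent.H25.RG.HalfGirth

open Pool.Agent.H25.RG

/-- `G` has `2 t` edges and every colour class of `c` on the edges of `G` has exactly two edges -/
def IsPairColouring {n : ℕ} (t : ℕ) (G : SimpleGraph (Fin n)) (c : Sym2 (Fin n) → ℕ) : Prop :=
  G.edgeSet.ncard = 2 * t ∧ ∀ e ∈ G.edgeSet, {e' | e' ∈ G.edgeSet ∧ c e' = c e}.ncard = 2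

/-- the length of a shortest rainbow cycle, `⊤` if there is none -/
noncomputable def rainbowGirth {n : ℕ} (G : SimpleGraph (Fin n)) (c : Sym2 (Fin n) → ℕ) : ℕ∞ :=
  ⨅ (v : Fin n) (p : G.Walk v v) (_ : p.IsCycle ∧ (p.edges.map c).Nodup), (p.length : ℕ∞)

/-- `f(n,t)`: the largest rainbow girth of a graph with `n` vertices and `2 t` edges all of whose
colour classes have two edges -/
noncomputable def f (n t : ℕ) : ℕ∞ :=
  sSup {r | ∃ (G : SimpleGraph (Fin n)) (c : Sym2 (Fin n) → ℕ),
    IsPairColouring t G c ∧ rainbowGirth G c = r}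

/-- the largest girth of a graph with `n` vertices and `t` edges -/
noncomputable def g (n t : ℕ) : ℕ∞ :=
  sSup {r | ∃ H : SimpleGraph (Fin n), H.edgeSet.ncard = t ∧ H.egirth = r}

open scoped Classical in
lemma ncard_eq {n : ℕ} (G : SimpleGraph (Fin n)) : G.edgeSet.ncard = G.edgeFinset.card := by
  rw [← SimpleGraph.coe_edgeFinset, Set.ncard_coe_finset]

open scoped Classical in
lemma pair_iff {n t : ℕ} {G : SimpleGraph (Fin n)} {c : Sym2 (Fin n) → ℕ} :
    IsPairColouring t G c ↔ G.edgeFinset.card = 2 * t ∧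
      ∀ e ∈ G.edgeFinset, (G.edgeFinset.filter (fun e' => c e' = c e)).card = 2 := by
  unfold IsPairColouring
  have h2 : ∀ e, {e' | e' ∈ G.edgeSet ∧ c e' = c e}.ncard =
      (G.edgeFinset.filter (fun e' => c e' = c e)).card := by
    intro e
    rw [← Set.ncard_coe_finset]
    congr 1
    ext e'
    simp
  rw [ncard_eq]
  simp only [h2, SimpleGraph.mem_edgeFinset]

/-- **`g(n,t) ≤ 2 f(n,t)` and `f(n,t) ≤ g(n,t)` for `t ≥ n`** -/
theorem result (n t : ℕ) (hnt : n ≤ t) (ht : 2 * t ≤ n.choose 2) :
    g n t ≤ 2 * f n t ∧ f n t ≤ g n t := by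
  classical
  constructor
  · refine sSup_le ?_
    rintro r ⟨H, hH, rfl⟩
    rw [ncard_eq] at hH
    by_cases hg : 5 ≤ H.egirth
    · obtain ⟨G, c, h1, h2, h3⟩ := exists_half H hH (by rw [Fintype.card_fin]; exact hnt) hg
      have hG : IsPairColouring t G c := pair_iff.2 ⟨by convert h1, by
        intro e he
        convert h2 e (by convert he)⟩
      have h4 : rainbowGirth G c ≤ f n t := le_sSup ⟨G, c, hG, rfl⟩
      refine le_trans ?_ (mul_le_mul_right h4 2)
      by_cases htop : rainbowGirth G c = ⊤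
      · rw [htop]
        simp
      · -- the infimum is attained
        by_contra hcon
        rw [not_le] at hcon
        have h5 : ∃ (v : Fin n) (p : G.Walk v v), (p.IsCycle ∧ (p.edges.map c).Nodup) ∧
            2 * (p.length : ℕ∞) < H.egirth := by
          by_contra hno
          push Not at hno
          obtain ⟨m, hm⟩ := ENat.ne_top_iff_exists.1 htop
          have h6 : ((m + 1 : ℕ) : ℕ∞) ≤ rainbowGirth G c := by
            refine le_iInf fun v => le_iInf fun p => le_iInf fun hp => ?_
            have h7 := hno v p hp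
            have h8 := hcon.trans_le h7
            rw [← hm] at h8
            have h9 : 2 * m < 2 * p.length := by exact_mod_cast h8
            have h10 : m + 1 ≤ p.length := by omega
            exact_mod_cast h10
          rw [← hm] at h6
          have h7 : m + 1 ≤ m := by exact_mod_cast h6
          omega
        obtain ⟨v, p, hp, h6⟩ := h5
        exact absurd (h3 v p hp.1 hp.2) (not_le.2 h6)
    · rw [not_le] at hg
      obtain ⟨G, c, h1, h2⟩ := exists_pair ht
      have hG : IsPairColouring t G c := pair_iff.2 ⟨by convert h1, by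
        intro e he
        convert h2 e (by convert he)⟩
      have h4 : rainbowGirth G c ≤ f n t := le_sSup ⟨G, c, hG, rfl⟩
      have h5 : (3 : ℕ∞) ≤ rainbowGirth G c := by
        refine le_iInf fun v => le_iInf fun p => le_iInf fun hp => ?_
        exact_mod_cast hp.1.three_le_length
      calc H.egirth ≤ 5 := hg.le
        _ ≤ 2 * 3 := by norm_num
        _ ≤ 2 * f n t := mul_le_mul_right (h5.trans h4) 2
  · refine sSup_le ?_
    rintro r ⟨G, c, hG, rfl⟩
    obtain ⟨h1, h2⟩ := pair_iff.1 hG
    obtain ⟨H, hHG, hHt, hinj⟩ := select h1 h2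
    have h3 : rainbowGirth G c ≤ H.egirth := by
      rw [SimpleGraph.le_egirth]
      intro a w hw
      have h4 : (w.mapLe hHG).IsCycle ∧ ((w.mapLe hHG).edges.map c).Nodup := by
        refine ⟨hw.mapLe hHG, ?_⟩
        rw [SimpleGraph.Walk.edges_mapLe_eq_edges]
        refine List.Nodup.map_on ?_ hw.isTrail.edges_nodup
        intro e he e' he' hee
        exact hinj e (w.edges_subset_edgeSet he) e' (w.edges_subset_edgeSet he') hee
      refine (iInf_le_of_le a (iInf_le_of_le (w.mapLe hHG) (iInf_le_of_le h4 le_rfl))).trans ?_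
      simp
    exact h3.trans (le_sSup ⟨H, by rw [ncard_eq]; exact hHt, rfl⟩)

end Pool.Agent.H25.RG.HalfGirth
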